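import Mathlib

set_option autoImplicit false

namespace Pool.Agent.Results.MP_551fda_co.KPlusThree

/-- `f(k)`: the least maximum degree of a finite graph with chromatic number `k` and no
`K_{k-1}`. -/
noncomputable def f (k : ℕ) : ℕ :=
  sInf {d | ∃ (V : Type) (_ : Fintype V) (G : SimpleGraph V) (_ : DecidableRel G.Adj),
    G.chromaticNumber = k ∧ G.CliqueFree (k - 1) ∧ G.maxDegree = d}

/-- adjacency in the 5-cycle -/
def c5 (a b : Fin 5) : Bool := decide (b = a + 1) || decide (a = b + 1)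

/-- the join of two 5-cycles and a complete graph on `m` vertices -/
def G (m : ℕ) : SimpleGraph (Fin 5 ⊕ (Fin 5 ⊕ Fin m)) where
  Adj := fun x y => match x, y with
    | Sum.inl a, Sum.inl b => c5 a b = true
    | Sum.inr (Sum.inl a), Sum.inr (Sum.inl b) => c5 a b = true
    | Sum.inr (Sum.inr a), Sum.inr (Sum.inr b) => a ≠ b
    | _, _ => True
  symm := ⟨by
    have hs : ∀ a b, c5 a b = true → c5 b a = true := by decide
    rintro (a | a | a) (b | b | b) h
    · exact hs a b h
    · trivial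
    · trivial
    · trivial
    · exact hs a b h
    · trivial
    · trivial
    · trivial
    · exact fun e => h e.symm⟩
  loopless := ⟨by
    have hl : ∀ a, ¬ (c5 a a = true) := by decide
    rintro (a | a | a) h
    · exact hl a h
    · exact hl a h
    · exact h rfl⟩

theorem adj11 (m : ℕ) (a b : Fin 5) : (G m).Adj (Sum.inl a) (Sum.inl b) ↔ c5 a b = true := Iff.rfl
theorem adj22 (m : ℕ) (a b : Fin 5) :
    (G m).Adj (Sum.inr (Sum.inl a)) (Sum.inr (Sum.inl b)) ↔ c5 a b = true := Iff.rfl
theorem adj33 (m : ℕ) (a b : Fin m) :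
    (G m).Adj (Sum.inr (Sum.inr a)) (Sum.inr (Sum.inr b)) ↔ a ≠ b := Iff.rfl
theorem adj12 (m : ℕ) (a : Fin 5) (b : Fin 5 ⊕ Fin m) :
    (G m).Adj (Sum.inl a) (Sum.inr b) := by rcases b with b | b <;> trivial
theorem adj23 (m : ℕ) (a : Fin 5) (b : Fin m) :
    (G m).Adj (Sum.inr (Sum.inl a)) (Sum.inr (Sum.inr b)) := trivial

/-- colour classes of `C5` -/
def col5 : Fin 5 → Fin 3 := ![0, 1, 0, 1, 2]

theorem colorable (m : ℕ) : (G m).Colorable (m + 6) := by
  have h5 : ∀ a b, c5 a b = true → (col5 a).1 ≠ (col5 b).1 := by decide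
  let c : Fin 5 ⊕ (Fin 5 ⊕ Fin m) → ℕ := fun x => match x with
    | Sum.inl a => (col5 a).1
    | Sum.inr (Sum.inl a) => 3 + (col5 a).1
    | Sum.inr (Sum.inr a) => 6 + a.1
  have hlt : ∀ x, c x < m + 6 := by
    rintro (a | a | a)
    · have := (col5 a).2
      show (col5 a).1 < m + 6
      omega
    · have := (col5 a).2
      show 3 + (col5 a).1 < m + 6
      omega
    · have := a.2
      show 6 + a.1 < m + 6
      omega
  have hadj : ∀ x y, (G m).Adj x y → c x ≠ c y := by
    rintro (a | a | a) (b | b | b) h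
    · exact h5 a b h
    · have := (col5 a).2
      show (col5 a).1 ≠ 3 + (col5 b).1
      omega
    · have := (col5 a).2
      show (col5 a).1 ≠ 6 + b.1
      omega
    · have := (col5 b).2
      show 3 + (col5 a).1 ≠ (col5 b).1
      omega
    · have := h5 a b h
      show 3 + (col5 a).1 ≠ 3 + (col5 b).1
      omega
    · have := (col5 a).2
      show 3 + (col5 a).1 ≠ 6 + b.1
      omega
    · have := (col5 b).2
      show 6 + a.1 ≠ (col5 b).1
      omega
    · have := (col5 b).2
      show 6 + a.1 ≠ 3 + (col5 b).1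
      omega
    · have h' : a ≠ b := h
      have : a.1 ≠ b.1 := fun e => h' (Fin.ext e)
      show 6 + a.1 ≠ 6 + b.1
      omega
  refine ⟨SimpleGraph.Coloring.mk (fun x => (⟨c x, hlt x⟩ : Fin (m + 6))) ?_⟩
  intro x y h e
  exact hadj x y h (congrArg Fin.val e)

/-- a proper colouring of `C5` uses at least three colours -/
theorem three_le {α : Type*} [DecidableEq α] (c : Fin 5 → α)
    (hc : ∀ a b, c5 a b = true → c a ≠ c b) : 3 ≤ (Finset.univ.image c).card := by
  by_contra hcon
  push Not at hcon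
  have hcard : (Finset.univ.image c).card ≤ 2 := by omega
  have h01 := hc 0 1 (by decide)
  have h12 := hc 1 2 (by decide)
  have h23 := hc 2 3 (by decide)
  have h34 := hc 3 4 (by decide)
  have h40 := hc 4 0 (by decide)
  have hthree : ∀ x y z : Fin 5, c x ≠ c y → c y ≠ c z → c x = c z := by
    intro x y z h1 h2
    by_contra h3
    have hsub : ({c x, c y, c z} : Finset α) ⊆ Finset.univ.image c := by
      intro w hw
      simp only [Finset.mem_insert, Finset.mem_singleton] at hw
      rcases hw with rfl | rfl | rfl <;> exact Finset.mem_image_of_mem _ (Finset.mem_univ _)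
    have h4 : ({c x, c y, c z} : Finset α).card = 3 := by
      rw [Finset.card_eq_three]
      exact ⟨c x, c y, c z, h1, h3, h2, rfl⟩
    have h5 := Finset.card_le_card hsub
    omega
  have e02 := hthree 0 1 2 h01 h12
  have e24 := hthree 2 3 4 h23 h34
  exact h40 (by rw [← e24, ← e02])

theorem not_colorable (m n : ℕ) (h : (G m).Colorable n) : m + 6 ≤ n := by
  classical
  obtain ⟨C⟩ := h
  set c1 : Fin 5 → Fin n := fun a => C (Sum.inl a)
  set c2 : Fin 5 → Fin n := fun a => C (Sum.inr (Sum.inl a))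
  set c3 : Fin m → Fin n := fun a => C (Sum.inr (Sum.inr a))
  have h1 : 3 ≤ (Finset.univ.image c1).card := three_le c1 fun a b hab => C.valid hab
  have h2 : 3 ≤ (Finset.univ.image c2).card := three_le c2 fun a b hab => C.valid hab
  have h3 : (Finset.univ.image c3).card = m := by
    rw [Finset.card_image_of_injective, Finset.card_univ, Fintype.card_fin]
    intro a b hab
    by_contra hne
    exact C.valid ((adj33 m a b).2 hne) hab
  have d12 : Disjoint (Finset.univ.image c1) (Finset.univ.image c2) := by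
    rw [Finset.disjoint_left]
    intro x hx hy
    obtain ⟨a, _, rfl⟩ := Finset.mem_image.1 hx
    obtain ⟨b, _, hb⟩ := Finset.mem_image.1 hy
    exact C.valid (adj12 m a (Sum.inl b)) hb.symm
  have d13 : Disjoint (Finset.univ.image c1 ∪ Finset.univ.image c2) (Finset.univ.image c3) := by
    rw [Finset.disjoint_left]
    intro x hx hy
    obtain ⟨b, _, hb⟩ := Finset.mem_image.1 hy
    rcases Finset.mem_union.1 hx with hx | hx
    · obtain ⟨a, _, rfl⟩ := Finset.mem_image.1 hx
      exact C.valid (adj12 m a (Sum.inr b)) hb.symm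
    · obtain ⟨a, _, rfl⟩ := Finset.mem_image.1 hx
      exact C.valid (adj23 m a b) hb.symm
  have hle := Finset.card_le_univ ((Finset.univ.image c1 ∪ Finset.univ.image c2) ∪
    Finset.univ.image c3)
  rw [Finset.card_union_of_disjoint d13, Finset.card_union_of_disjoint d12, Fintype.card_fin] at hle
  omega

theorem chromatic (m : ℕ) : (G m).chromaticNumber = ((m + 6 : ℕ) : ℕ∞) := by
  apply le_antisymm
  · exact (colorable m).chromaticNumber_le
  · rw [SimpleGraph.le_chromaticNumber_iff_colorable]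
    intro n hn
    exact not_colorable m n hn

theorem clique5 (s : Finset (Fin 5)) (hs : ∀ a ∈ s, ∀ b ∈ s, a ≠ b → c5 a b = true) :
    s.card ≤ 2 := by
  revert s
  decide

theorem cliqueFree (m : ℕ) : (G m).CliqueFree (m + 5) := by
  classical
  intro s hs
  rw [SimpleGraph.isNClique_iff] at hs
  obtain ⟨hcl, hcard⟩ := hs
  have hadj : ∀ x ∈ s, ∀ y ∈ s, x ≠ y → (G m).Adj x y := fun x hx y hy hne => hcl hx hy hne
  let s1 : Finset (Fin 5) := Finset.univ.filter fun a => Sum.inl a ∈ s
  let s2 : Finset (Fin 5) := Finset.univ.filter fun a => Sum.inr (Sum.inl a) ∈ s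
  let s3 : Finset (Fin m) := Finset.univ.filter fun a => Sum.inr (Sum.inr a) ∈ s
  have h1 : s1.card ≤ 2 := by
    apply clique5
    intro a ha b hb hne
    have ha' := (Finset.mem_filter.1 ha).2
    have hb' := (Finset.mem_filter.1 hb).2
    exact (adj11 m a b).1 (hadj _ ha' _ hb' fun e => hne (Sum.inl_injective e))
  have h2 : s2.card ≤ 2 := by
    apply clique5
    intro a ha b hb hne
    have ha' := (Finset.mem_filter.1 ha).2
    have hb' := (Finset.mem_filter.1 hb).2
    exact (adj22 m a b).1 (hadj _ ha' _ hb' fun e =>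
      hne (Sum.inl_injective (Sum.inr_injective e)))
  have h3 : s3.card ≤ m := (Finset.card_le_univ s3).trans (by simp)
  have hsub : s ⊆ (s1.image Sum.inl ∪ s2.image (fun a => Sum.inr (Sum.inl a))) ∪
      s3.image (fun a => Sum.inr (Sum.inr a)) := by
    intro x hx
    simp only [Finset.mem_union, Finset.mem_image]
    rcases x with a | a | a
    · exact Or.inl (Or.inl ⟨a, Finset.mem_filter.2 ⟨Finset.mem_univ _, hx⟩, rfl⟩)
    · exact Or.inl (Or.inr ⟨a, Finset.mem_filter.2 ⟨Finset.mem_univ _, hx⟩, rfl⟩)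
    · exact Or.inr ⟨a, Finset.mem_filter.2 ⟨Finset.mem_univ _, hx⟩, rfl⟩
  have h4 := Finset.card_le_card hsub
  have h5 := Finset.card_union_le (s1.image (Sum.inl : Fin 5 → Fin 5 ⊕ (Fin 5 ⊕ Fin m)) ∪
    s2.image (fun a => Sum.inr (Sum.inl a))) (s3.image (fun a => Sum.inr (Sum.inr a)))
  have h6 := Finset.card_union_le (s1.image (Sum.inl : Fin 5 → Fin 5 ⊕ (Fin 5 ⊕ Fin m)))
    (s2.image (fun a => Sum.inr (Sum.inl a)))
  have h7 := Finset.card_image_le (s := s1) (f := (Sum.inl : Fin 5 → Fin 5 ⊕ (Fin 5 ⊕ Fin m)))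
  have h8 := Finset.card_image_le (s := s2)
    (f := (fun a => Sum.inr (Sum.inl a) : Fin 5 → Fin 5 ⊕ (Fin 5 ⊕ Fin m)))
  have h9 := Finset.card_image_le (s := s3)
    (f := (fun a => Sum.inr (Sum.inr a) : Fin m → Fin 5 ⊕ (Fin 5 ⊕ Fin m)))
  omega

/-- `f(k) ≤ k + 3` for every `k ≥ 6`, and the infimum defining `f(k)` is attained. -/
theorem result : ∀ k : ℕ, 6 ≤ k → f k ≤ k + 3 ∧
    ∃ (V : Type) (_ : Fintype V) (G : SimpleGraph V) (_ : DecidableRel G.Adj),
      G.chromaticNumber = k ∧ G.CliqueFree (k - 1) ∧ G.maxDegree = f k := by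
  classical
  intro k hk
  obtain ⟨m, rfl⟩ := Nat.exists_eq_add_of_le' hk
  have hmem : (G m).maxDegree ∈ {d | ∃ (V : Type) (_ : Fintype V) (G : SimpleGraph V)
      (_ : DecidableRel G.Adj), G.chromaticNumber = ((m + 6 : ℕ) : ℕ∞) ∧
      G.CliqueFree (m + 6 - 1) ∧ G.maxDegree = d} :=
    ⟨_, inferInstance, G m, inferInstance, chromatic m, cliqueFree m, rfl⟩
  refine ⟨?_, Nat.sInf_mem ⟨_, hmem⟩⟩
  refine (Nat.sInf_le hmem).trans ?_
  have h1 : (G m).maxDegree < Fintype.card (Fin 5 ⊕ (Fin 5 ⊕ Fin m)) := by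
    have : Nonempty (Fin 5 ⊕ (Fin 5 ⊕ Fin m)) := ⟨Sum.inl 0⟩
    exact (G m).maxDegree_lt_card_verts
  simp only [Fintype.card_sum, Fintype.card_fin] at h1
  omega

end Pool.Agent.Results.MP_551fda_co.KPlusThree
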